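import Pool.Agent.NH61.OpenConv.Main

/-!
# MP_09b497_an, Q1

For every infinite group of bounded exponent, convolution on `ℓ¹(G)` is not an open map.
-/

namespace Pool.Agent.Results.MP_09b497_an.NotOpen

open Pool.Agent.V1192

/-- For every infinite group `G` of bounded exponent, the convolution
`ℓ¹(G) × ℓ¹(G) → ℓ¹(G)` is not an open map. -/
theorem result (G : Type) [Group G] [Infinite G] (n : ℕ) (hn : 1 ≤ n)
    (hG : ∀ g : G, g ^ n = 1) :
    ¬ IsOpenMap (fun q : lp (fun _ : G => ℂ) 1 × lp (fun _ : G => ℂ) 1 =>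
      UOE.conv q.1 q.2) :=
  fun h => Pool.Agent.NH61.OpenConv.not_open G n hn hG
    (Pool.Agent.NH61.OpenConv.openMul_of_conv h)

end Pool.Agent.Results.MP_09b497_an.NotOpen
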